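import Pool.Agent.Q2N.Stmts

/-!
# ASM: the assembly over the reals
-/

set_option autoImplicit false

namespace Pool.Agent.Q2N.H1

open Pool.Agent.Q2N Pool.Agent.UW Module

section inv

variable {K : Type} [Field K] {φ c : RingAut K}
  (g : DD φ ≃+* DD φ) (hg2 : ∀ d j, (ψ' φ (g d)).coeff j = c ((ψ φ d).coeff j))

include hg2 in
theorem g_ι (h : K) : g (ι φ h) = ι φ (c h) := by
  have h1 : ψ' φ (g (ι φ h) - ι φ (c h)) = 0 := by
    rw [map_sub, sub_eq_zero]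
    ext j
    rw [hg2]
    show c ((sgl φ h 0).coeff j) = (sgl φ⁻¹ (c h) (-0)).coeff j
    rw [neg_zero, sgl_coeff, sgl_coeff]
    split_ifs
    · rfl
    · exact map_zero c
  exact sub_eq_zero.1 (ψ'_inj h1)

end inv

theorem asm (hEll : EllStmt) (hRest : RestStmt) (hAmb : AmbStmt) (hFdh : FdhStmt) (hDim : DimStmt)
    (hOre : OreStmt) (hFrc : FrcStmt) (hGend : GendStmt) (hRea : ReaStmt) (hCpx : CpxStmt)
    (hGinv : GinvStmt) (hInd : IndStmt) (hSg1 : Sg1Stmt) (hSg2 : Sg2Stmt) (hRed : RedStmt)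
    (hMM : H90.MMStmt) (hBasew : BasewStmt) (hWinm : WinmStmt) (hMinus : MinusStmt)
    (hWinp : WinpStmt) (hSep : SepStmt) (hSepl : SeplStmt) (hPull : PullStmt) (hLemh : LemhStmt)
    (hLemt : LemtStmt) (hPlus : PlusStmt) : AsmStmt := by
  obtain ⟨K₀, _, _, S₀, c₀, f₀, hSym₀⟩ := hEll
  obtain ⟨K, _, _, S, c, f, hSym, hGen⟩ := hRest _ _ S₀ c₀ _ f₀ hSym₀
  obtain ⟨A, hFG, hle, hge, hfr⟩ := hAmb hFdh hDim hOre hFrc hGend ℂ K S f hSym.nc hGen
  letI algR : Algebra ℝ (DD S.σ) := Algebra.compHom (DD S.σ) (algebraMap ℝ ℂ)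
  haveI tow : IsScalarTower ℝ ℂ (DD S.σ) := IsScalarTower.of_algebraMap_eq fun r => rfl
  obtain ⟨hFG', hle', hge'⟩ := hRea (DD S.σ) A hFG hle hge
  obtain ⟨g, hgg, hg1, hg2⟩ := hGinv K S.σ c hSym.comm hSym.inv
  have hgι : ∀ h : K, g (ι S.σ h) = ι S.σ (c h) := g_ι g hg2
  have halgR : ∀ r : ℝ, algebraMap ℝ (DD S.σ) r = algebraMap ℂ (DD S.σ) (r : ℂ) := fun _ => rfl
  have hgc : ∀ z : ℂ, g (algebraMap ℂ (DD S.σ) z) = algebraMap ℂ (DD S.σ) (starRingAut z) := by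
    intro z
    rw [algebraMap_DD, hgι, hSym.alg, algebraMap_DD]
  refine ⟨DD S.σ, inferInstance, algR, A.restrictScalars ℝ, hFG', hle', hge', hfr, ?_⟩
  let D' : Subalgebra ℝ (DD S.σ) :=
    { carrier := {x | g x = x}
      mul_mem' := by
        intro a b ha hb
        show g (a * b) = a * b
        rw [map_mul, ha, hb]
      add_mem' := by
        intro a b ha hb
        show g (a + b) = a + b
        rw [map_add, ha, hb]
      algebraMap_mem' := by
        intro r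
        show g (algebraMap ℝ (DD S.σ) r) = algebraMap ℝ (DD S.σ) r
        rw [halgR, hgc]
        congr 1
        exact Complex.conj_ofReal r }
  refine ⟨D', ?_, ?_⟩
  · intro x hx
    show g x⁻¹ = x⁻¹
    rw [map_inv₀, hx]
  rintro ⟨A', hA'D, hA'2, hA'f⟩
  obtain ⟨B, hB, hB2⟩ := hCpx (DD S.σ) A' hA'2
  have hA'B : ∀ x ∈ A', x ∈ B := fun x hx =>
    (hB x).2 ⟨x, hx, 0, A'.zero_mem, by rw [mul_zero, add_zero]⟩
  -- `B` is an order
  obtain ⟨Q, hQ, hQinv⟩ := hFrc ℂ (DD S.σ) B (hOre ℂ (DD S.σ) B 2 hB2)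
  have hD'Q : ∀ x ∈ D', x ∈ Q := by
    intro x hx
    obtain ⟨a, ha, s, hs, hs0, hx⟩ := hA'f x hx
    exact (hQ x).2 ⟨a, hA'B a ha, s, hA'B s hs, hs0, hx⟩
  have hi2 : algebraMap ℂ (DD S.σ) Complex.I * algebraMap ℂ (DD S.σ) Complex.I = -1 := by
    rw [← map_mul, Complex.I_mul_I, map_neg, map_one]
  have hgI : g (algebraMap ℂ (DD S.σ) Complex.I) = - algebraMap ℂ (DD S.σ) Complex.I := by
    rw [hgc, ← map_neg]
    congr 1
    exact Complex.conj_I
  have h2D : (algebraMap ℂ (DD S.σ) (2 : ℂ)) ≠ 0 := by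
    rw [Ne, map_eq_zero]
    norm_num
  have hBfr : Frac B := by
    intro x
    apply (hQ x).1
    have h1 : x + g x ∈ Q := by
      apply hD'Q
      show g (x + g x) = x + g x
      rw [map_add, hgg, add_comm]
    have h2 : algebraMap ℂ (DD S.σ) Complex.I * (x - g x) ∈ Q := by
      apply hD'Q
      show g (algebraMap ℂ (DD S.σ) Complex.I * (x - g x)) = _
      rw [map_mul, map_sub, hgg, hgI]
      noncomm_ring
    have h3 : x - g x ∈ Q := by
      have h4 : x - g x = algebraMap ℂ (DD S.σ) (-Complex.I) *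
          (algebraMap ℂ (DD S.σ) Complex.I * (x - g x)) := by
        rw [← mul_assoc, map_neg, neg_mul, hi2, neg_neg, one_mul]
      rw [h4]
      exact Q.mul_mem (Q.algebraMap_mem _) h2
    have h5 : x = algebraMap ℂ (DD S.σ) (2 : ℂ)⁻¹ * ((x + g x) + (x - g x)) := by
      have h6 : (x + g x) + (x - g x) = algebraMap ℂ (DD S.σ) 2 * x := by
        rw [map_ofNat, two_mul]
        abel
      rw [h6, ← mul_assoc, ← map_mul, inv_mul_cancel₀ (two_ne_zero), map_one, one_mul]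
    rw [h5]
    exact Q.mul_mem (Q.algebraMap_mem _) (Q.add_mem h1 h3)
  -- a nonconstant element of `A'`
  have hnc : ∃ x ∈ A', ∀ z : ℂ, x ≠ algebraMap ℂ (DD S.σ) z := by
    by_contra hcon
    push Not at hcon
    have hf : ι S.σ f ∈ D' := by
      show g (ι S.σ f) = ι S.σ f
      rw [hgι, hSym.fix]
    obtain ⟨a, ha, s, hs, hs0, hx⟩ := hA'f _ hf
    obtain ⟨z, hz⟩ := hcon a ha
    obtain ⟨w, hw⟩ := hcon s hs
    apply hSym.nc (z * w⁻¹)
    apply (ι S.σ).injective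
    rw [← algebraMap_DD, map_mul, map_inv₀, hx, hz, hw]
  obtain ⟨x, hxA, hxnc⟩ := hnc
  have hxB := hA'B x hxA
  have hgx : g x = x := hA'D hxA
  -- the signs at the two ends
  have hs0 := hSg2 ℂ K S (DD S.σ) (end0 S) B hBfr
    (hSg1 hInd ℂ K S (DD S.σ) (end0 S) B hBfr hB2)
  have hsI := hSg2 ℂ K S.inv (DD S.σ) (endI S) B hBfr
    (hSg1 hInd ℂ K S.inv (DD S.σ) (endI S) B hBfr hB2)
  have hx0 : ψ S.σ x ∈ SkewLaurent.P K S.σ 0 ↔ ψ' S.σ x ∈ SkewLaurent.P K S.σ⁻¹ 0 := by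
    constructor
    · intro h j hj
      have h1 := hg2 x j
      rw [hgx, h j hj, map_zero] at h1
      exact h1
    · intro h j hj
      have h1 := hg1 x j
      rw [hgx, h j hj, map_zero] at h1
      exact h1
  rcases hs0 with h0 | h0
  · rcases hsI with hI | hI
    · exact hMinus hMM hBasew hWinm hDim ℂ K S B hBfr hB2 h0 hI
    · obtain ⟨z, hz⟩ := h0 x hxB (hx0.2 (hI x hxB).1)
      exact hxnc z hz
  · rcases hsI with hI | hI
    · obtain ⟨z, hz⟩ := hI x hxB (hx0.1 (h0 x hxB).1)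
      exact hxnc z hz
    · obtain ⟨C, hCB, hCFG, hC2, hCfr⟩ := hRed hOre hFrc hGend ℂ K S f hGen B hB2 hBfr
      exact hPlus hBasew hWinp hSep hSepl hPull hLemh hFdh hLemt ℂ K S C hCFG hCfr
        (fun z hz => h0 z (hCB hz)) (fun z hz => hI z (hCB hz))

end Pool.Agent.Q2N.H1
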