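import Pool.Agent.Q2N.Stmts

/-!
# GINV: the involution of `K(y;φ)` that exchanges the two expansions
-/

set_option autoImplicit false

namespace Pool.Agent.Q2N.H1

open Pool.Agent.UW Pool.Agent.Q2N

variable {K : Type} [Field K]

theorem comm_zpow {φ χ c : RingAut K} (h : ∀ x, c (φ x) = χ (c x)) (n : ℤ) (x : K) :
    c ((φ ^ n) x) = (χ ^ n) (c x) := by
  have e : c * φ = χ * c := by
    ext x
    exact h x
  have e2 : χ = c * φ * c⁻¹ := by
    rw [e]
    group
  have e3 : χ ^ n = c * φ ^ n * c⁻¹ := by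
    rw [e2, conj_zpow]
  have e4 : c * φ ^ n = χ ^ n * c := by
    rw [e3]
    group
  have := DFunLike.congr_fun e4 x
  exact this

/-- apply `c` to all coefficients -/
def cmap {φ χ : RingAut K} (c : RingAut K) (u : SkewLaurent K φ) : SkewLaurent K χ :=
  ⟨fun i => c (u.coeff i), by
    obtain ⟨n, hn⟩ := u.bdd
    exact ⟨n, fun i hi => by rw [hn i hi, map_zero]⟩⟩

theorem cmap_coeff {φ χ : RingAut K} (c : RingAut K) (u : SkewLaurent K φ) (i : ℤ) :
    (cmap (χ := χ) c u).coeff i = c (u.coeff i) := rfl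

theorem cmap_mul {φ χ : RingAut K} (c : RingAut K) (h : ∀ x, c (φ x) = χ (c x))
    (u w : SkewLaurent K φ) : cmap (χ := χ) c (u * w) = cmap c u * cmap c w := by
  obtain ⟨m, hm⟩ := u.bdd
  obtain ⟨k, hk⟩ := w.bdd
  ext n
  rw [cmap_coeff, SkewLaurent.coeff_mul_eq u w hm hk, map_sum,
    SkewLaurent.coeff_mul_eq (cmap (χ := χ) c u) (cmap (χ := χ) c w) (m := m) (k := k)
      (fun i hi => by rw [cmap_coeff, hm i hi, map_zero])
      (fun i hi => by rw [cmap_coeff, hk i hi, map_zero])]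
  apply Finset.sum_congr rfl
  intro i _
  rw [map_mul, comm_zpow h, cmap_coeff, cmap_coeff]

theorem cmap_add {φ χ : RingAut K} (c : RingAut K) (u w : SkewLaurent K φ) :
    cmap (χ := χ) c (u + w) = cmap c u + cmap c w := by
  ext n
  rw [cmap_coeff, SkewLaurent.coeff_add, SkewLaurent.coeff_add, map_add, cmap_coeff, cmap_coeff]

theorem cmap_zero {φ χ : RingAut K} (c : RingAut K) :
    cmap (φ := φ) (χ := χ) c 0 = 0 := by
  ext n
  rw [cmap_coeff, SkewLaurent.coeff_zero, SkewLaurent.coeff_zero, map_zero]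

theorem cmap_eq_zero {φ χ : RingAut K} (c : RingAut K) {u : SkewLaurent K φ}
    (h : cmap (χ := χ) c u = 0) : u = 0 := by
  ext n
  have h1 : (cmap (χ := χ) c u).coeff n = 0 := by rw [h]; rfl
  rw [cmap_coeff] at h1
  rw [SkewLaurent.coeff_zero]
  exact (map_eq_zero_iff c c.injective).1 h1

/-- exchange the expansions and apply `c` -/
def sw {φ : RingAut K} (c : RingAut K) (z : Pair φ) : Pair φ := (cmap c z.2, cmap c z.1)

theorem sw_mul {φ : RingAut K} (c : RingAut K) (h : ∀ x, c (φ x) = φ⁻¹ (c x))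
    (z w : Pair φ) : sw c (z * w) = sw c z * sw c w := by
  have h' : ∀ x, c (φ⁻¹ x) = φ (c x) := by
    intro x
    have h1 := h (φ⁻¹ x)
    have h2 : φ (φ⁻¹ x) = x := φ.apply_symm_apply x
    rw [h2] at h1
    rw [h1]
    exact (φ.apply_symm_apply _).symm
  refine Prod.ext ?_ ?_
  · exact cmap_mul c h' z.2 w.2
  · exact cmap_mul c h z.1 w.1

theorem sw_add {φ : RingAut K} (c : RingAut K) (z w : Pair φ) :
    sw c (z + w) = sw c z + sw c w :=
  Prod.ext (cmap_add c z.2 w.2) (cmap_add c z.1 w.1)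

theorem sw_sw {φ : RingAut K} (c : RingAut K) (hc : ∀ x, c (c x) = x) (z : Pair φ) :
    sw c (sw c z) = z := by
  refine Prod.ext ?_ ?_
  · ext i
    exact hc _
  · ext i
    exact hc _

theorem sw_lau {φ : RingAut K} (c : RingAut K) {z : Pair φ} (hz : z ∈ lau φ) :
    sw c z ∈ lau φ := by
  intro i
  show c (z.1.coeff i) = c (z.2.coeff (-i))
  rw [hz (-i), neg_neg]

theorem sw_ne {φ : RingAut K} (c : RingAut K) {z : Pair φ} (hz : z ≠ 0) : sw c z ≠ 0 := by
  intro h
  apply hz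
  refine Prod.ext ?_ ?_
  · exact cmap_eq_zero c (congrArg Prod.snd h)
  · exact cmap_eq_zero c (congrArg Prod.fst h)

theorem sw_Dsub {φ : RingAut K} (c : RingAut K) (h : ∀ x, c (φ x) = φ⁻¹ (c x))
    {z : Pair φ} (hz : z ∈ Dsub φ) : sw c z ∈ Dsub φ := by
  obtain ⟨P, hP, hP0, hz⟩ := hz
  refine ⟨sw c P, sw_lau c hP, sw_ne c hP0, ?_⟩
  rw [← sw_mul c h]
  exact sw_lau c hz

theorem ginv : GinvStmt := by
  intro K _ φ c h hc
  refine ⟨{ toFun := fun d => ⟨sw c d.1, sw_Dsub c h d.2⟩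
            invFun := fun d => ⟨sw c d.1, sw_Dsub c h d.2⟩
            left_inv := fun d => Subtype.ext (sw_sw c hc d.1)
            right_inv := fun d => Subtype.ext (sw_sw c hc d.1)
            map_mul' := fun d e => Subtype.ext (sw_mul c h d.1 e.1)
            map_add' := fun d e => Subtype.ext (sw_add c d.1 e.1) }, ?_, ?_, ?_⟩
  · intro d
    exact Subtype.ext (sw_sw c hc d.1)
  · intro d j
    rfl
  · intro d j
    rfl

end Pool.Agent.Q2N.H1
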