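import Pool.Agent.Q2N.Stmts

/-!
# CPX and REA: growth over the reals and over the complex numbers

Everything is proved for a field extension `L / k` with `L = k + k j`, `j^2 = -1`.
-/

set_option autoImplicit false

namespace Pool.Agent.Q2N.H1

open Pool.Agent.Q2N Module

section gen

variable {k L D : Type} [Field k] [Field L] [DivisionRing D] [Algebra k L] [Algebra L D]
  [Algebra k D] [IsScalarTower k L D]

theorem span_fin (W : Submodule k D) (hW : FiniteDimensional k W) :
    FiniteDimensional L (Submodule.span L (W : Set D)) ∧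
      finrank L (Submodule.span L (W : Set D)) ≤ finrank k W := by
  classical
  let b := Module.finBasis k W
  let s : Finset D := Finset.univ.image fun i => (b i : D)
  have h1 : (W : Set D) ⊆ Submodule.span L (s : Set D) := by
    intro x hx
    have h2 : ∑ i, b.repr ⟨x, hx⟩ i • b i = (⟨x, hx⟩ : W) := b.sum_repr _
    have h3 : ∑ i, b.repr ⟨x, hx⟩ i • (b i : D) = x := by
      have h4 := congrArg (W.subtype) h2
      rw [map_sum] at h4
      exact h4
    rw [← h3]
    refine Submodule.sum_mem _ fun i _ => ?_
    have h4 : b.repr ⟨x, hx⟩ i • (b i : D) = (algebraMap k L (b.repr ⟨x, hx⟩ i)) • (b i : D) := by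
      rw [algebraMap_smul]
    rw [h4]
    refine Submodule.smul_mem _ _ (Submodule.subset_span ?_)
    exact Finset.mem_coe.2 (Finset.mem_image.2 ⟨i, Finset.mem_univ _, rfl⟩)
  have h5 : Submodule.span L (W : Set D) ≤ Submodule.span L (s : Set D) := Submodule.span_le.2 h1
  have h6 : FiniteDimensional L (Submodule.span L (s : Set D)) :=
    FiniteDimensional.span_finset L s
  refine ⟨Submodule.finiteDimensional_of_le h5, ?_⟩
  refine (Submodule.finrank_mono h5).trans ?_
  refine (finrank_span_finset_le_card s).trans ?_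
  refine Finset.card_image_le.trans ?_
  rw [Finset.card_univ, Fintype.card_fin]

theorem pow_le_span (V : Submodule L D) (V' : Submodule k D)
    (h : V ≤ Submodule.span L (V' : Set D)) (n : ℕ) :
    V ^ n ≤ Submodule.span L ((V' ^ n : Submodule k D) : Set D) := by
  induction n with
  | zero =>
    rw [pow_zero, pow_zero]
    intro x hx
    obtain ⟨c, rfl⟩ := Submodule.mem_one.1 hx
    rw [Algebra.algebraMap_eq_smul_one]
    refine Submodule.smul_mem _ _ (Submodule.subset_span ?_)
    exact Submodule.mem_one.2 ⟨1, map_one _⟩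
  | succ n ih =>
    rw [pow_succ, Submodule.mul_le]
    intro x hx z hz
    have h1 := Submodule.mul_mem_mul (ih hx) (h hz)
    rw [Submodule.span_mul_span] at h1
    refine Submodule.span_mono ?_ h1
    rintro _ ⟨a, ha, b, hb, rfl⟩
    rw [pow_succ]
    exact Submodule.mul_mem_mul ha hb

theorem fd_pow {F : Type} [Field F] {D : Type} [DivisionRing D] [Algebra F D]
    (V : Submodule F D) (h : FiniteDimensional F V) (n : ℕ) :
    FiniteDimensional F (V ^ n : Submodule F D) := by
  have h1 : V.FG := V.fg_iff_finiteDimensional.2 h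
  have h2 : (V ^ n).FG := h1.pow n
  exact (V ^ n).fg_iff_finiteDimensional.1 h2

theorem pow_le_restrict (V : Submodule k D) (W : Submodule L D)
    (h : ∀ x ∈ V, x ∈ W) (n : ℕ) : ∀ x ∈ V ^ n, x ∈ W ^ n := by
  induction n with
  | zero =>
    intro x hx
    rw [pow_zero] at hx ⊢
    obtain ⟨c, rfl⟩ := Submodule.mem_one.1 hx
    exact Submodule.mem_one.2 ⟨algebraMap k L c, by
      rw [IsScalarTower.algebraMap_apply k L D]⟩
  | succ n ih =>
    intro x hx
    rw [pow_succ] at hx ⊢
    refine Submodule.mul_induction_on hx ?_ ?_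
    · intro m hm z hz
      exact Submodule.mul_mem_mul (ih m hm) (h z hz)
    · intro u w hu hw
      exact add_mem hu hw

theorem restrict_le_pow (V : Submodule L D) (n : ℕ) :
    ∀ x ∈ V ^ (n + 1), x ∈ (V.restrictScalars k) ^ (n + 1) := by
  induction n with
  | zero =>
    intro x hx
    rw [zero_add, pow_one] at hx ⊢
    exact hx
  | succ n ih =>
    intro x hx
    rw [pow_succ] at hx ⊢
    refine Submodule.mul_induction_on hx ?_ ?_
    · intro m hm z hz
      exact Submodule.mul_mem_mul (ih m hm) hz
    · intro u w hu hw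
      exact add_mem hu hw

theorem finrank_two (W : Submodule L D) :
    finrank k (W.restrictScalars k) = finrank k L * finrank L W :=
  (Module.finrank_mul_finrank k L W).symm

theorem fd_real [FiniteDimensional k L] (W : Submodule L D) (h : FiniteDimensional L W) :
    FiniteDimensional k (W.restrictScalars k) := by
  have h1 : Module.Finite k W := Module.Finite.trans L W
  exact h1

section cpx

variable (j : L) (hj : j * j = -1)
  (hre : ∀ c : L, ∃ a b : k, c = algebraMap k L a + j * algebraMap k L b)

include hre in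
theorem alg_re_im (c : L) : ∃ a b : k, algebraMap L D c =
    algebraMap k D a + algebraMap L D j * algebraMap k D b := by
  obtain ⟨a, b, h⟩ := hre c
  refine ⟨a, b, ?_⟩
  rw [h, map_add, map_mul, IsScalarTower.algebraMap_apply k L D,
    IsScalarTower.algebraMap_apply k L D]

omit [Algebra k L] [Algebra k D] [IsScalarTower k L D] in
theorem I_comm (x : D) : x * algebraMap L D j = algebraMap L D j * x :=
  (Algebra.commutes _ _).symm

omit [Algebra k L] [Algebra k D] [IsScalarTower k L D] in
include hj in
theorem I_mul_I : algebraMap L D j * algebraMap L D j = -1 := by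
  rw [← map_mul, hj, map_neg, map_one]

/-- the complexification of a real subalgebra -/
noncomputable def cpxA (A' : Subalgebra k D) : Subalgebra L D where
  carrier := {x | ∃ a ∈ A', ∃ b ∈ A', x = a + algebraMap L D j * b}
  mul_mem' := by
    rintro _ _ ⟨a, ha, b, hb, rfl⟩ ⟨a', ha', b', hb', rfl⟩
    refine ⟨a * a' - b * b', sub_mem (mul_mem ha ha') (mul_mem hb hb'),
      a * b' + b * a', add_mem (mul_mem ha hb') (mul_mem hb ha'), ?_⟩
    have h1 : a * (algebraMap L D j * b') = algebraMap L D j * (a * b') := by
      rw [← mul_assoc, I_comm, mul_assoc]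
    have h2 : algebraMap L D j * b * (algebraMap L D j * b') = -(b * b') := by
      rw [mul_assoc, ← mul_assoc b, I_comm, mul_assoc, ← mul_assoc, I_mul_I j hj, neg_one_mul]
    rw [add_mul, mul_add, mul_add, h1, h2, mul_add, mul_assoc]
    abel
  add_mem' := by
    rintro _ _ ⟨a, ha, b, hb, rfl⟩ ⟨a', ha', b', hb', rfl⟩
    refine ⟨a + a', add_mem ha ha', b + b', add_mem hb hb', ?_⟩
    rw [mul_add]
    abel
  algebraMap_mem' := by
    intro c
    obtain ⟨a, b, h⟩ := alg_re_im (D := D) j hre c
    exact ⟨_, Subalgebra.algebraMap_mem A' a, _, Subalgebra.algebraMap_mem A' b, h⟩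

include hj hre in
theorem cpx_gen (A' : Subalgebra k D) (d : ℝ) (hA' : GKle k A' d) :
    ∃ A : Subalgebra L D, (∀ x, x ∈ A ↔ ∃ a ∈ A', ∃ b ∈ A', x = a + algebraMap L D j * b) ∧
      GKle L A d := by
  classical
  refine ⟨cpxA j hj hre A', fun x => Iff.rfl, ?_⟩
  intro V hV hfd h1V ε hε
  obtain ⟨s, hs⟩ := V.fg_iff_finiteDimensional.2 hfd
  have hsA : ∀ x ∈ s, ∃ a ∈ A', ∃ b ∈ A', x = a + algebraMap L D j * b := by
    intro x hx
    exact hV (by rw [← hs]; exact Submodule.subset_span hx)
  choose! a ha b hb hab using hsA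
  let V' : Submodule k D := Submodule.span k (({1} ∪ (s.image a ∪ s.image b) : Finset D) : Set D)
  have hV'A : V' ≤ Subalgebra.toSubmodule A' := by
    refine Submodule.span_le.2 ?_
    intro x hx
    rw [Finset.mem_coe, Finset.mem_union, Finset.mem_union, Finset.mem_singleton,
      Finset.mem_image, Finset.mem_image] at hx
    rcases hx with rfl | ⟨z, hz, rfl⟩ | ⟨z, hz, rfl⟩
    · exact one_mem A'
    · exact ha z hz
    · exact hb z hz
  have hV'fd : FiniteDimensional k V' := FiniteDimensional.span_finset k _
  have h1V' : (1 : Submodule k D) ≤ V' := by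
    rw [Submodule.one_le]
    refine Submodule.subset_span ?_
    rw [Finset.mem_coe, Finset.mem_union, Finset.mem_singleton]
    exact Or.inl rfl
  have hVV' : V ≤ Submodule.span L (V' : Set D) := by
    rw [← hs]
    refine Submodule.span_le.2 ?_
    intro x hx
    rw [hab x hx]
    refine add_mem (Submodule.subset_span ?_) ?_
    · refine Submodule.subset_span ?_
      rw [Finset.mem_coe, Finset.mem_union, Finset.mem_union]
      exact Or.inr (Or.inl (Finset.mem_image.2 ⟨x, hx, rfl⟩))
    · rw [← Algebra.smul_def]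
      refine Submodule.smul_mem _ _ (Submodule.subset_span (Submodule.subset_span ?_))
      rw [Finset.mem_coe, Finset.mem_union, Finset.mem_union]
      exact Or.inr (Or.inr (Finset.mem_image.2 ⟨x, hx, rfl⟩))
  filter_upwards [hA' V' hV'A hV'fd h1V' ε hε] with n hn
  refine le_trans ?_ hn
  obtain ⟨h2, h3⟩ := span_fin (L := L) (V' ^ n) (fd_pow V' hV'fd n)
  have := h2
  exact_mod_cast (Submodule.finrank_mono (pow_le_span V V' hVV' n)).trans h3

include hre in
theorem rea_FG (A : Subalgebra L D) (hFG : A.FG) : (A.restrictScalars k).FG := by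
  classical
  obtain ⟨s, hs⟩ := hFG
  refine ⟨s ∪ {algebraMap L D j}, le_antisymm ?_ ?_⟩
  · refine Algebra.adjoin_le ?_
    intro x hx
    rw [Finset.mem_coe, Finset.mem_union, Finset.mem_singleton] at hx
    show x ∈ A
    rcases hx with hx | rfl
    · rw [← hs]
      exact Algebra.subset_adjoin hx
    · exact Subalgebra.algebraMap_mem A _
  · set B : Subalgebra k D := Algebra.adjoin k ((s ∪ {algebraMap L D j} : Finset D) :
      Set D) with hB
    have hI : algebraMap L D j ∈ B := by
      refine Algebra.subset_adjoin ?_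
      rw [Finset.mem_coe, Finset.mem_union, Finset.mem_singleton]
      exact Or.inr rfl
    let C : Subalgebra L D :=
      { B.toSubsemiring with
        algebraMap_mem' := by
          intro c
          show algebraMap L D c ∈ B
          obtain ⟨a, b, h⟩ := alg_re_im (D := D) j hre c
          rw [h]
          exact add_mem (Subalgebra.algebraMap_mem B _)
            (mul_mem hI (Subalgebra.algebraMap_mem B _)) }
    have h1 : A ≤ C := by
      rw [← hs]
      refine Algebra.adjoin_le ?_
      intro x hx
      show x ∈ B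
      refine Algebra.subset_adjoin ?_
      rw [Finset.mem_coe, Finset.mem_union]
      exact Or.inl hx
    intro x hx
    exact h1 hx

end cpx

theorem rea_le [FiniteDimensional k L] (h2 : finrank k L = 2) (A : Subalgebra L D)
    (hle : GKle L A 2) : GKle k (A.restrictScalars k) 2 := by
  intro V hV hfd h1V ε hε
  let W : Submodule L D := Submodule.span L (V : Set D)
  obtain ⟨hWfd, -⟩ := span_fin (L := L) V hfd
  have hWA : W ≤ Subalgebra.toSubmodule A := Submodule.span_le.2 fun x hx => hV hx
  have h1W : (1 : Submodule L D) ≤ W := by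
    rw [Submodule.one_le]
    exact Submodule.subset_span (Submodule.one_le.1 h1V)
  have h2' := hle W hWA hWfd h1W (ε / 2) (by positivity)
  have h3 : ∀ᶠ n : ℕ in Filter.atTop, (2 : ℝ) ≤ (n : ℝ) ^ (ε / 2) := by
    have := (tendsto_rpow_atTop (y := ε / 2) (by positivity)).comp
      (tendsto_natCast_atTop_atTop (R := ℝ))
    exact this.eventually_ge_atTop 2
  filter_upwards [h2', h3, Filter.eventually_gt_atTop 0] with n hn hn2 hn0
  have h4 : finrank k (V ^ n : Submodule k D) ≤ 2 * finrank L (W ^ n : Submodule L D) := by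
    rw [← h2, ← finrank_two]
    have := fd_real (k := k) (W ^ n) (fd_pow W hWfd n)
    refine Submodule.finrank_mono ?_
    intro x hx
    exact pow_le_restrict V W (fun z hz => Submodule.subset_span hz) n x hx
  have h5 : (finrank k (V ^ n : Submodule k D) : ℝ) ≤ 2 * finrank L (W ^ n : Submodule L D) := by
    exact_mod_cast h4
  have hn0' : (0 : ℝ) < n := by exact_mod_cast hn0
  calc (finrank k (V ^ n : Submodule k D) : ℝ) ≤ 2 * finrank L (W ^ n : Submodule L D) := h5
    _ ≤ (n : ℝ) ^ (ε / 2) * (n : ℝ) ^ (2 + ε / 2) :=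
      mul_le_mul hn2 hn (by positivity) (by positivity)
    _ = (n : ℝ) ^ (2 + ε) := by
      rw [← Real.rpow_add hn0']
      congr 1
      ring

theorem rea_ge [FiniteDimensional k L] (h2 : 1 ≤ finrank k L) (A : Subalgebra L D)
    (hge : GKge L A) : GKge k (A.restrictScalars k) := by
  intro d hd
  obtain ⟨V, hV, hfd, h1V, ε, hε, hfr⟩ := hge d hd
  refine ⟨V.restrictScalars k, fun x hx => hV hx, fd_real V hfd, ?_, ε, hε, ?_⟩
  · rw [Submodule.one_le]
    have h : (1 : D) ∈ V := Submodule.one_le.1 h1V
    exact h
  · refine (hfr.and_eventually (Filter.eventually_gt_atTop 0)).mono ?_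
    rintro n ⟨hn, hn0⟩
    obtain ⟨m, rfl⟩ : ∃ m, n = m + 1 := ⟨n - 1, by omega⟩
    refine lt_of_lt_of_le hn ?_
    have := fd_pow (V.restrictScalars k) (fd_real V hfd) (m + 1)
    have h1 : finrank k ((V ^ (m + 1)).restrictScalars k) ≤
        finrank k ((V.restrictScalars k) ^ (m + 1) : Submodule k D) :=
      Submodule.finrank_mono fun x hx => restrict_le_pow V m x hx
    rw [finrank_two] at h1
    have h2 : finrank L (V ^ (m + 1) : Submodule L D) ≤
        finrank k ((V.restrictScalars k) ^ (m + 1) : Submodule k D) :=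
      (Nat.le_mul_of_pos_left _ h2).trans h1
    exact_mod_cast h2

end gen

theorem cpx : CpxStmt := by
  intro D _ _ _ _ A' hA'
  exact cpx_gen (k := ℝ) (L := ℂ) Complex.I Complex.I_mul_I
    (fun c => ⟨c.re, c.im, by rw [mul_comm]; exact (Complex.re_add_im c).symm⟩) A' 2 hA'

theorem rea : ReaStmt := by
  intro D _ _ _ _ A hFG hle hge
  refine ⟨?_, ?_, ?_⟩
  · exact rea_FG (k := ℝ) (L := ℂ) Complex.I
      (fun c => ⟨c.re, c.im, by rw [mul_comm]; exact (Complex.re_add_im c).symm⟩) A hFG
  · exact rea_le Complex.finrank_real_complex A hle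
  · exact rea_ge (by rw [Complex.finrank_real_complex]; norm_num) A hge

end Pool.Agent.Q2N.H1
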