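import Pool.Agent.Helper1_Q2N.Asm
import Pool.Agent.Helper1_Q2N.Ginv
import Pool.Agent.Helper1_Q2N.Rea
import Pool.Agent.Helper14_Q2N.Ell
import Pool.Agent.Helper86_Q2N.Rest
import Pool.Agent.Helper86_Q2N.Sg1
import Pool.Agent.Helper9_Q2N.Amb
import Pool.Agent.Helper46_Q2N.Fdh
import Pool.Agent.Helper48_Q2N.Dim
import Pool.Agent.Helper56_Q2N.ORE
import Pool.Agent.Helper25_Q2N.Frc
import Pool.Agent.Helper17_Q2N.Gend
import Pool.Agent.Helper20_Q2N.Ind
import Pool.Agent.Helper76_Q2N.SG2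
import Pool.Agent.Helper61_Q2N.Red
import Pool.Agent.Helper90_Q2N.MM
import Pool.Agent.Helper90_Q2N.Minus
import Pool.Agent.Helper94_Q2N.Basew
import Pool.Agent.Helper94_Q2N.Winm
import Pool.Agent.Helper94_Q2N.Pull
import Pool.Agent.Helper32_Q2N.Winp
import Pool.Agent.Helper71_Q2N.Sep
import Pool.Agent.Helper30_Q2N.Sepl
import Pool.Agent.Helper47_Q2N.Lemh
import Pool.Agent.Helper47_Q2N.Lemt
import Pool.Agent.Helper47_Q2N.Plus

/-!
# The disproof of Q2 of MP_87570e_al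
-/

set_option autoImplicit false

namespace Pool.Agent.Q2N.H1

open Pool.Agent.Q2N

theorem final : AsmStmt :=
  asm H14.ell H86.rest H9.amb H46.fdh H48.dim H56.ore H25.frc H17.gend rea cpx ginv H20.ind
    H86.sg1 H76.sg2 H61.red H90.mm H94.basew H94.winm H90.minus H32.winp H71.sep H30.sepl
    H94.pull H47.lemh H47.lemt H47.plus

end Pool.Agent.Q2N.H1
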